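import Pool.Agent.Helper630.TwoSumming.Final

open Pool.Agent.Helper630.TwoSumming

namespace Pool.Agent.Results.MP_d3a69a_an.TwoSumming

/-- Settles the question for every fixed `α ≥ 1`. The first part says that `H_φ` is unique; the operators
`H_φ : B₁^α → B_∞^{-α}` are all bounded and 2-absolutely summing when `α > 1`, and some bounded `H_φ` is
not 2-absolutely summing when `α = 1`. -/
theorem result (α : ℝ) (n : ℕ) (hα : 1 ≤ α) (hn : α < n) :
    (∀ (φ : Binf α) (u v : B1 α n →L[ℂ] Binf α), IsHankel φ u → IsHankel φ v → u = v) ∧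
    (1 < α → ∀ φ : Binf α, ∃ u : B1 α n →L[ℂ] Binf α, IsHankel φ u ∧ IsTwoSumming u) ∧
    (α = 1 → ∃ (φ : Binf α) (u : B1 α n →L[ℂ] Binf α), IsHankel φ u ∧ ¬ IsTwoSumming u) :=
  main α n hα hn

end Pool.Agent.Results.MP_d3a69a_an.TwoSumming
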